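import Pool.Agent.Helper66.Kiss.RootB
import Pool.Agent.Helper91.Kiss.OneE

set_option autoImplicit false

/-! # The leaf `J3`: computation and soundness -/

namespace Pool.Agent.Helper91.Dl

open Real Set Pool.Agent.Helper98.DL Pool.Agent.Helper66.Kiss Pool.Agent.Helper91.Kiss
  Pool.Agent.Helper66.Kiss.Dl Pool.Agent.Helper54.KA

/-- weight of a class, leaf `J3` -/
noncomputable def j3w (_k a b : ℕ) : ℕ :=
  Helper98.DL.cb (Nat.ble 6112 a) 1 (Helper98.DL.cb (Nat.ble 6032 a) 256
    (Helper98.DL.cb (Nat.ble b 2096) 65536 16777216))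

/-- four points at the upper ring, one a little lower, and five points at the lower ring -/
noncomputable def j3C (L : ℕ) : Bool :=
  Helper98.DL.cb (Nat.ble (Nat.div (fdK L 1) 65536) 32804)
    (Nat.beq (sum10 j3w L) 327940) false

lemma j3w_cases (k a b : ℕ) : (j3w k a b = 1 ∧ 6112 ≤ a) ∨ (j3w k a b = 256 ∧ 6032 ≤ a) ∨
    (j3w k a b = 65536 ∧ b ≤ 2096) ∨ j3w k a b = 16777216 := by
  unfold j3w
  simp only [cb_cond]
  cases h1 : Nat.ble 6112 a with
  | true => exact Or.inl ⟨rfl, Nat.le_of_ble_eq_true h1⟩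
  | false =>
    cases h2 : Nat.ble 6032 a with
    | true => exact Or.inr (Or.inl ⟨rfl, Nat.le_of_ble_eq_true h2⟩)
    | false =>
      cases h3 : Nat.ble b 2096 with
      | true => exact Or.inr (Or.inr (Or.inl ⟨rfl, Nat.le_of_ble_eq_true h3⟩))
      | false => exact Or.inr (Or.inr (Or.inr rfl))

theorem j3C_sound {L : ℕ} {z φ : ℕ → ℝ} (h : j3C L = true) (hB : InB L z) : PyL z φ := by
  classical
  unfold j3C at h
  rw [cb_cond] at h
  obtain ⟨h1, h2⟩ := Pool.Agent.Helper66.Kiss.Dl.cond_true h
  have h3 := Nat.eq_of_beq_eq_true h2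
  rw [sum10_eq] at h3
  obtain ⟨hbox, -⟩ := box_bridge (Z := Zf z) hB (fun _ => rfl)
  set w : Fin 10 → ℕ := fun l => j3w (l + 1) (fdK L (l + 2) % 65536) (fdK L (l + 2) / 65536)
    with hw
  have hcs : ∀ l : Fin 10, (w l = 1 ∧ 6112 ≤ fdK L (l + 2) % 65536) ∨
      (w l = 256 ∧ 6032 ≤ fdK L (l + 2) % 65536) ∨
      (w l = 65536 ∧ fdK L (l + 2) / 65536 ≤ 2096) ∨ w l = 16777216 := fun l => j3w_cases _ _ _
  obtain ⟨c1, c2⟩ := count_sum (w := w) (p := 1) (q := 256) (r := 65536) (t := 16777216)
    (by norm_num) (by norm_num) (by norm_num) (by norm_num) (by norm_num) (by norm_num)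
    (fun l => by
      rcases hcs l with h | h | h | h
      · exact Or.inl h.1
      · exact Or.inr (Or.inl h.1)
      · exact Or.inr (Or.inr (Or.inl h.1))
      · exact Or.inr (Or.inr (Or.inr h)))
  have h3' : ∑ l, w l = 327940 := h3
  rw [h3'] at c1
  clear_value w
  have n1 : (Finset.univ.filter fun l => w l = 1).card = 4 := by omega
  have n2 : (Finset.univ.filter fun l => w l = 256).card = 1 := by omega
  have n4 : (Finset.univ.filter fun l => w l = 16777216).card = 0 := by omega
  have n5 : ∀ l, w l ≠ 16777216 := by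
    intro l hl
    rw [Finset.card_eq_zero] at n4
    have : l ∈ (Finset.univ.filter fun l => w l = 16777216) := by simp [hl]
    rw [n4] at this
    exact absurd this (Finset.notMem_empty l)
  clear c1 c2 h3 h3' h2 h
  obtain ⟨q, hq⟩ := Finset.card_eq_one.1 n2
  have hq1 : w q = 256 := by
    have : q ∈ (Finset.univ.filter fun l => w l = 256) := by rw [hq]; exact Finset.mem_singleton_self q
    exact (Finset.mem_filter.1 this).2
  have hq2 : ∀ l, w l = 256 → l = q := by
    intro l hl
    have : l ∈ (Finset.univ.filter fun l => w l = 256) := by simp [hl]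
    rw [hq] at this
    exact Finset.mem_singleton.1 this
  have hqn : q ∉ (Finset.univ.filter fun l => w l = 1) := by
    intro h
    have := (Finset.mem_filter.1 h).2
    omega
  set U : Finset (Fin 11) :=
    (insert q (Finset.univ.filter fun l => w l = 1)).map (Fin.succEmb 10) with hU
  have hmem : ∀ l : Fin 10, l.succ ∈ U ↔ (l = q ∨ w l = 1) := by
    intro l
    rw [hU, Finset.mem_map]
    constructor
    · rintro ⟨a, ha, he⟩
      have : a = l := Fin.succ_injective _ he
      subst this
      rcases Finset.mem_insert.1 ha with h | h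
      · exact Or.inl h
      · exact Or.inr (Finset.mem_filter.1 h).2
    · rintro (hl | hl)
      · exact ⟨l, Finset.mem_insert.2 (Or.inl hl), rfl⟩
      · exact ⟨l, Finset.mem_insert.2 (Or.inr (Finset.mem_filter.2 ⟨Finset.mem_univ _, hl⟩)), rfl⟩
  refine Or.inr (gainS_of_J (gainP_jone (s := 0) (p := q.succ) (U := U) ?_ ?_ ?_ ?_ ?_ ?_ ?_))
  · rw [hU, Finset.mem_map]
    rintro ⟨a, -, he⟩
    exact Fin.succ_ne_zero a he
  · rw [hU, Finset.card_map, Finset.card_insert_of_notMem hqn, n1]
  · exact (hmem q).2 (Or.inl rfl)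
  · have := z0_le hB (K := 36) h1
    refine lt_of_le_of_lt this ?_
    norm_num
  · rcases hcs q with h | h | h | h
    · omega
    · have e1 : (6032 : ℝ) ≤ ((fdK L (q + 2) % 65536 : ℕ) : ℝ) := by exact_mod_cast h.2
      have := hbox.lo q
      linarith
    · omega
    · omega
  · intro k hk hkp
    rcases Fin.eq_zero_or_eq_succ k with rfl | ⟨l, rfl⟩
    · exfalso
      rw [hU, Finset.mem_map] at hk
      obtain ⟨a, -, he⟩ := hk
      exact Fin.succ_ne_zero a he
    · rw [hmem] at hk
      rcases hk with hk | hk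
      · exact absurd (congrArg Fin.succ hk) hkp
      · rcases hcs l with h | h | h | h
        · have e1 : (6112 : ℝ) ≤ ((fdK L (l + 2) % 65536 : ℕ) : ℝ) := by exact_mod_cast h.2
          have := hbox.lo l
          linarith
        · omega
        · omega
        · omega
  · intro k hk hk0
    obtain ⟨l, rfl⟩ := Fin.exists_succ_eq.2 hk0
    rw [hmem] at hk
    push Not at hk
    rcases hcs l with h | h | h | h
    · exact absurd h.1 hk.2
    · exact absurd (hq2 l h.1) hk.1
    · have e1 : ((fdK L (l + 2) / 65536 : ℕ) : ℝ) ≤ 2096 := by exact_mod_cast h.2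
      have := hbox.hi l
      linarith
    · exact absurd h (n5 l)

/-- **all leaves** of stage B: kind `5` is the order of the first and the last node, kind `6` is
the leaf `J3` -/
noncomputable def dlC (L f D r : ℕ) : Bool :=
  Helper98.DL.cb (Nat.beq (Nat.mod r 8) 6) (j3C L) (dlB L f D r)

theorem dlC_root (L f D r : ℕ) (h : dlC L f D r = true) : Helper54.KA.Good HSB PR L f := by
  unfold dlC at h
  cases hk : Nat.beq (Nat.mod r 8) 6 with
  | true =>
    rw [hk] at h
    intro z φ _ hB _
    exact j3C_sound h hB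
  | false =>
    rw [hk] at h
    exact dlB_root L f D r h

end Pool.Agent.Helper91.Dl
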